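import Pool.Agent.Lib.EH4.SpecK

/-! Spacing of reduced fractions. -/

namespace Pool.Agent.Lib.EH4

open Finset Pool.Agent.Results.MP_00e23e_nt Pool.Agent.Lib.EH Pool.Agent.Lib.EH3

theorem tSpc : SpcStmt := by
  intro Q q b v c hq hqQ hb hbq hv hvQ hc hcv hne
  have hq0 : (0 : ℝ) < q := by
    have : 0 < q := by omega
    exact_mod_cast this
  have hv0 : (0 : ℝ) < v := by
    have : 0 < v := by omega
    exact_mod_cast this
  have hqQ' : (q : ℝ) ≤ Q := by exact_mod_cast hqQ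
  have hvQ' : (v : ℝ) ≤ Q := by exact_mod_cast hvQ
  set k := round ((b : ℝ) / q - (c : ℝ) / v) with hk
  set z : ℤ := (b : ℤ) * v - (c : ℤ) * q - (q : ℤ) * v * k with hz
  have h1 : ((b : ℝ) / q - (c : ℝ) / v) - k = (z : ℝ) / (q * v) := by
    rw [hz]; push_cast; field_simp
  have hz0 : z ≠ 0 := by
    intro h
    have h2 : ((b : ℝ) / q - (c : ℝ) / v) = k := by
      rw [h] at h1
      simp only [Int.cast_zero, zero_div] at h1
      linarith
    have hbq1 : (b : ℝ) / q < 1 := by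
      rw [div_lt_one hq0]; exact_mod_cast hb
    have hcv1 : (c : ℝ) / v < 1 := by
      rw [div_lt_one hv0]; exact_mod_cast hc
    have hb0 : 0 ≤ (b : ℝ) / q := by positivity
    have hc0 : 0 ≤ (c : ℝ) / v := by positivity
    have hk0 : k = 0 := by
      have g1 : ((k : ℤ) : ℝ) < 1 := by rw [← h2]; linarith
      have g2 : (-1 : ℝ) < ((k : ℤ) : ℝ) := by rw [← h2]; linarith
      have g3 : k < 1 := by exact_mod_cast g1
      have g4 : -1 < k := by exact_mod_cast g2
      omega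
    have h3 : (b : ℤ) * v = (c : ℤ) * q := by
      rw [hz, hk0] at h; linarith
    have h4 : b * v = c * q := by exact_mod_cast h3
    have h5 : q ∣ v := by
      apply Nat.Coprime.dvd_of_dvd_mul_left hbq.symm
      exact ⟨c, by rw [h4]; ring⟩
    have h6 : v ∣ q := by
      apply Nat.Coprime.dvd_of_dvd_mul_left hcv.symm
      exact ⟨b, by rw [← h4]; ring⟩
    have h7 : q = v := Nat.dvd_antisymm h5 h6
    subst h7
    have h8 : b = c := Nat.eq_of_mul_eq_mul_right (by omega) h4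
    exact hne ⟨rfl, h8⟩
  rw [h1, abs_div, abs_of_pos (by positivity : (0 : ℝ) < q * v)]
  have h2 : (1 : ℝ) ≤ |(z : ℝ)| := by
    have : (1 : ℤ) ≤ |z| := Int.one_le_abs hz0
    exact_mod_cast this
  have hQ0 : (0 : ℝ) < Q := lt_of_lt_of_le hq0 hqQ'
  rw [div_le_div_iff₀ (by positivity) (by positivity)]
  have h3 : (q : ℝ) * v ≤ Q ^ 2 := by
    rw [sq]; exact mul_le_mul hqQ' hvQ' hv0.le hQ0.le
  nlinarith [sq_nonneg (Q : ℝ)]

end Pool.Agent.Lib.EH4
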