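import Pool.Agent.Lib.EH4.SpecK

/-! Fractions with denominator r, grouped by their reduced denominator. -/

namespace Pool.Agent.Lib.EH4

open Finset Pool.Agent.Results.MP_00e23e_nt Pool.Agent.Lib.EH Pool.Agent.Lib.EH3

theorem tFrac : FracStmt := by
  intro f r hr
  rw [Finset.sum_sigma']
  refine Finset.sum_bij' (fun a _ => (⟨r / Nat.gcd a r, a / Nat.gcd a r⟩ : Σ _ : ℕ, ℕ))
    (fun p _ => p.2 * (r / p.1)) ?_ ?_ ?_ ?_ ?_
  · intro a ha
    rw [mem_range] at ha
    have hg : 0 < Nat.gcd a r := Nat.gcd_pos_of_pos_right a (by omega)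
    rw [mem_sigma, Nat.mem_divisors, mem_filter, mem_range]
    refine ⟨⟨Nat.div_dvd_of_dvd (Nat.gcd_dvd_right a r), by omega⟩, ?_, ?_⟩
    · apply Nat.div_lt_div_of_lt_of_dvd (Nat.gcd_dvd_right a r) ha
    · exact Nat.coprime_div_gcd_div_gcd hg
  · rintro ⟨q, b⟩ hp
    rw [mem_sigma, Nat.mem_divisors, mem_filter, mem_range] at hp
    obtain ⟨⟨h1, h2⟩, h3, h4⟩ := hp
    dsimp only at h1 h2 h3 h4 ⊢
    rw [mem_range]
    obtain ⟨k, rfl⟩ := h1
    have hq : 0 < q := by omega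
    have hk : 0 < k := Nat.pos_of_ne_zero fun h => h2 (by rw [h, mul_zero])
    rw [Nat.mul_div_cancel_left k hq]
    exact Nat.mul_lt_mul_of_pos_right h3 hk
  · intro a ha
    rw [mem_range] at ha
    have hg : 0 < Nat.gcd a r := Nat.gcd_pos_of_pos_right a (by omega)
    dsimp only
    have h1 : r / (r / Nat.gcd a r) = Nat.gcd a r :=
      Nat.div_div_self (Nat.gcd_dvd_right a r) (by omega)
    rw [h1]
    exact Nat.div_mul_cancel (Nat.gcd_dvd_left a r)
  · rintro ⟨q, b⟩ hp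
    rw [mem_sigma, Nat.mem_divisors, mem_filter, mem_range] at hp
    obtain ⟨⟨h1, h2⟩, h3, h4⟩ := hp
    dsimp only at h1 h2 h3 h4 ⊢
    obtain ⟨k, rfl⟩ := h1
    have hq : 0 < q := by omega
    have hk : 0 < k := Nat.pos_of_ne_zero fun h => h2 (by rw [h, mul_zero])
    rw [Nat.mul_div_cancel_left k hq]
    have h5 : Nat.gcd (b * k) (q * k) = k := by
      rw [Nat.gcd_mul_right, h4.gcd_eq_one, one_mul]
    rw [h5, Nat.mul_div_cancel _ hk, Nat.mul_div_cancel _ hk]
  · intro a ha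
    rw [mem_range] at ha
    have hg : 0 < Nat.gcd a r := Nat.gcd_pos_of_pos_right a (by omega)
    dsimp only
    congr 1
    have hgR : ((Nat.gcd a r : ℕ) : ℝ) ≠ 0 := by
      have : Nat.gcd a r ≠ 0 := hg.ne'
      exact_mod_cast this
    rw [Nat.cast_div (Nat.gcd_dvd_left a r) hgR, Nat.cast_div (Nat.gcd_dvd_right a r) hgR]
    have hrR : (r : ℝ) ≠ 0 := by
      have : r ≠ 0 := by omega
      exact_mod_cast this
    field_simp

end Pool.Agent.Lib.EH4
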