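import Pool.Agent.Lib.EH4.SpecD

/-!
# Trivial bounds for the error terms
-/

namespace Pool.Agent.Lib.EH4

open Finset Pool.Agent.Results.MP_00e23e_nt Pool.Agent.Lib.EH Pool.Agent.Lib.EH3

theorem Triv_harm (n : ℕ) : ∑ a ∈ Icc 1 n, 1 / (a : ℝ) ≤ 1 + Real.log n := by
  have h1 := harmonic_le_one_add_log n
  rw [harmonic_eq_sum_Icc] at h1
  push_cast at h1
  simpa only [one_div] using h1

theorem Triv_log {x : ℝ} (hx : 3 ≤ x) : 1 ≤ Real.log x := by
  rw [Real.le_log_iff_exp_le (by linarith)]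
  have := Real.exp_one_lt_d9
  linarith

/-- the harmonic sum up to n ≤ x -/
theorem Triv_harm' {x : ℝ} (hx : 3 ≤ x) (n : ℕ) (hn : (n : ℝ) ≤ x) :
    ∑ a ∈ Icc 1 n, 1 / (a : ℝ) ≤ 2 * Real.log x := by
  have h1 := Triv_harm n
  have h2 := Triv_log hx
  rcases Nat.eq_zero_or_pos n with h | h
  · subst h
    simp
    linarith
  · have h3 : (0 : ℝ) < n := by exact_mod_cast h
    have h4 := Real.log_le_log h3 hn
    linarith

/-- number of primes in one class -/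
theorem Triv_count {x : ℝ} (hx : 3 ≤ x) {m : ℕ} (b : ℕ) (hm : 1 ≤ m) :
    (primeCount x m b : ℝ) ≤ x / m + 1 := by
  have hm0 : (0 : ℝ) < m := by exact_mod_cast hm
  have h1 : primeCount x m b ≤ ((Ioc 0 ⌊x⌋₊).filter (fun p => p ≡ b [MOD m])).card := by
    unfold primeCount
    refine Finset.card_le_card fun p hp => ?_
    rw [mem_filter, mem_Icc] at hp
    rw [mem_filter, mem_Ioc]
    exact ⟨⟨by omega, hp.1.2⟩, hp.2.2⟩
  have h2 := Nat.Ioc_filter_modEq_card (r := m) 0 ⌊x⌋₊ hm b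
  have h3 : (primeCount x m b : ℤ) ≤
      max (⌊((⌊x⌋₊ : ℚ) - b) / (m : ℚ)⌋ - ⌊(((0 : ℕ) : ℚ) - b) / (m : ℚ)⌋) 0 := by
    rw [← h2]
    exact_mod_cast h1
  rcases le_max_iff.mp h3 with h | h
  · have h4 : ((primeCount x m b : ℤ) : ℚ) ≤
        ((⌊((⌊x⌋₊ : ℚ) - b) / (m : ℚ)⌋ - ⌊(((0 : ℕ) : ℚ) - b) / (m : ℚ)⌋ : ℤ) : ℚ) := by
      exact_mod_cast h
    have h5 := Int.floor_le (((⌊x⌋₊ : ℚ) - b) / (m : ℚ))
    have h6 := Int.lt_floor_add_one ((((0 : ℕ) : ℚ) - b) / (m : ℚ))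
    have h7 : ((primeCount x m b : ℕ) : ℚ) ≤ (⌊x⌋₊ : ℚ) / m + 1 := by
      push_cast at h4 h5 h6
      have h8 : ((⌊x⌋₊ : ℚ) - b) / (m : ℚ) - ((0 : ℚ) - b) / (m : ℚ) = (⌊x⌋₊ : ℚ) / m := by
        ring
      linarith
    have h8 : ((primeCount x m b : ℕ) : ℝ) ≤ (⌊x⌋₊ : ℝ) / m + 1 := by
      have h7' := (Rat.cast_le (K := ℝ)).mpr h7
      push_cast at h7'
      exact h7'
    have h9 : (⌊x⌋₊ : ℝ) ≤ x := Nat.floor_le (by linarith)
    have h10 : (⌊x⌋₊ : ℝ) / m ≤ x / m := by gcongr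
    linarith
  · have h4 : primeCount x m b = 0 := by omega
    rw [h4]
    have : 0 ≤ x / m := by positivity
    push_cast
    linarith

theorem Triv_main {x : ℝ} (hx : 3 ≤ x) {m : ℕ} (hm : 1 ≤ m) (hmx : (m : ℝ) ≤ x) :
    li x / (m.totient : ℝ) ≤ 18 * (x / m) := by
  have hm0 : (0 : ℝ) < m := by exact_mod_cast hm
  have hL := Triv_log hx
  have h1 := li_le_div hx
  have h2 := le_totient m
  have h3 := card_primeFactors_le hm
  have h4 := Real.log_le_log hm0 hmx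
  have hφ : (0 : ℝ) < m.totient := by
    exact_mod_cast Nat.totient_pos.mpr (by omega)
  have h5 : (m : ℝ) ≤ 3 * Real.log x * m.totient := by
    refine h2.trans ?_
    gcongr
    linarith
  rw [div_le_iff₀ hφ]
  refine h1.trans ?_
  have h6 : 18 * (x / m) * (m.totient : ℝ) = 6 * (x / (m * Real.log x) * (3 * Real.log x * m.totient)) := by
    field_simp
    ring
  rw [h6]
  have h7 : x / Real.log x = x / (m * Real.log x) * m := by
    field_simp
  rw [h7]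
  have h8 : 0 ≤ x / (m * Real.log x) := by positivity
  gcongr

theorem Triv_err {x : ℝ} (hx : 3 ≤ x) {m : ℕ} (b : ℕ) (hm : 1 ≤ m) (hmx : (m : ℝ) ≤ x) :
    |err x m b| ≤ 20 * x / m := by
  have hm0 : (0 : ℝ) < m := by exact_mod_cast hm
  have h1 := Triv_count hx b hm
  have h2 := Triv_main hx hm hmx
  have h3 : 0 ≤ li x / (m.totient : ℝ) := div_nonneg (li_nonneg (by linarith)) (by positivity)
  have h4 : (0 : ℝ) ≤ primeCount x m b := by positivity
  have h5 : 1 ≤ x / m := by rwa [one_le_div hm0]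
  have h6 : 20 * x / m = 20 * (x / m) := by ring
  rw [h6]
  unfold err
  rw [abs_le]
  constructor <;> linarith

theorem Triv_cof {x : ℝ} (hx : 3 ≤ x) (d b : ℕ) (R : ℝ) (hd : 1 ≤ d) (hR : 0 ≤ R)
    (hdR : (d : ℝ) * R ≤ x) : |cofactorSum x d b R| ≤ 40 * (x / d) * Real.log x := by
  have hd0 : (0 : ℝ) < d := by exact_mod_cast hd
  have hd1 : (1 : ℝ) ≤ d := by exact_mod_cast hd
  have hR1 : (⌊R⌋₊ : ℝ) ≤ R := Nat.floor_le hR
  have hRx : (⌊R⌋₊ : ℝ) ≤ x := by nlinarith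
  have h1 := Triv_harm' hx ⌊R⌋₊ hRx
  unfold cofactorSum
  refine (Finset.abs_sum_le_sum_abs _ _).trans ?_
  have h2 : ∀ r ∈ (Icc 1 ⌊R⌋₊).filter (fun r => Squarefree (d * r) ∧ b.Coprime (d * r)),
      |err x (d * r) b| ≤ 20 * (x / d) * (1 / (r : ℝ)) := by
    intro r hr
    rw [mem_filter, mem_Icc] at hr
    obtain ⟨⟨hr1, hr2⟩, -⟩ := hr
    have hr0 : (0 : ℝ) < r := by exact_mod_cast hr1
    have hr3 : (r : ℝ) ≤ R := le_trans (by exact_mod_cast hr2) hR1
    have h3 := Triv_err hx (m := d * r) b (Nat.mul_pos hd hr1) (by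
      push_cast
      nlinarith)
    refine h3.trans (le_of_eq ?_)
    push_cast
    field_simp
  refine (Finset.sum_le_sum h2).trans ?_
  refine (Finset.sum_le_sum_of_subset_of_nonneg (Finset.filter_subset _ _) ?_).trans ?_
  · intro i _ _
    have : 0 ≤ x := by linarith
    positivity
  · rw [← Finset.mul_sum]
    have : 0 ≤ 20 * (x / d) := by
      have : 0 ≤ x := by linarith
      positivity
    calc 20 * (x / ↑d) * ∑ i ∈ Icc 1 ⌊R⌋₊, 1 / (i : ℝ)
        ≤ 20 * (x / ↑d) * (2 * Real.log x) := by gcongr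
      _ = 40 * (x / d) * Real.log x := by ring

theorem triv : TrivStmt := by
  intro x hx
  refine ⟨fun m b hm hmx => Triv_err hx b hm hmx, fun m hm hmx => ?_,
    fun d b R hd hR hdR => Triv_cof hx d b R hd hR hdR, fun d R hR => ?_⟩
  · obtain ⟨l, -, -, -, h⟩ := exists_maxErr x hm
    rw [h]
    exact Triv_err hx l hm hmx
  · unfold GG
    refine (Finset.sum_le_sum_of_subset_of_nonneg (Finset.filter_subset _ _) ?_).trans
      (Triv_harm' hx R hR)
    intro i _ _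
    positivity

end Pool.Agent.Lib.EH4
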