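import Pool.Agent.Lib.EH3.Defs
import Pool.Agent.Lib.EH3.SmallDefs

/-! Definitions for the smooth cofactor form of the level of distribution of the primes. -/

namespace Pool.Agent.Results.MP_00e23e_nt

open Finset

/-- the sum of the error terms E(x; d r, b) over r ≤ R with d r squarefree and b coprime to d r -/
noncomputable def cofactorSum (x : ℝ) (d b : ℕ) (R : ℝ) : ℝ :=
  ∑ r ∈ (Icc 1 ⌊R⌋₊).filter (fun r => Squarefree (d * r) ∧ b.Coprime (d * r)), err x (d * r) b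

/-- squarefree d with x^α/2 < d ≤ x^α -/
noncomputable def dyadicModuli (α x : ℝ) : Finset ℕ :=
  (Icc 1 ⌊x ^ α⌋₊).filter (fun d => Squarefree d ∧ x ^ α / 2 < (d : ℝ))

/-- all shifts b(d), uniformly, absolute values inside the sum over d -/
def CofactorSup (α ρ : ℝ) : Prop :=
  ∀ U : ℝ, 0 < U → ∃ C : ℝ, ∀ x : ℝ, 3 ≤ x → ∀ b : ℕ → ℕ,
    ∑ d ∈ moduli α x, |cofactorSum x d (b d) (x ^ ρ)| ≤ C * (x / (Real.log x) ^ U)

/-- shifts b(d) ≤ d (1 + log d)^k prescribed in advance, signed sum over dyadic d -/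
def CofactorSigned (α ρ : ℝ) : Prop :=
  ∀ (k : ℕ) (b : ℕ → ℕ),
    (∀ d, 1 ≤ d → 1 ≤ b d ∧ (b d : ℝ) ≤ d * (1 + Real.log d) ^ k ∧ (b d).Coprime d) →
    ∀ U : ℝ, 0 < U → ∃ C : ℝ, ∀ x : ℝ, 3 ≤ x →
      |∑ d ∈ dyadicModuli α x, cofactorSum x d (b d) (x ^ ρ)| ≤ C * (x / (Real.log x) ^ U)

end Pool.Agent.Results.MP_00e23e_nt
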