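import Pool.Agent.Lib.EH4.Defs
import Pool.Agent.Lib.EH3.SmallMain
import Pool.Agent.Lib.EH.LiftBase

/-!
# Divisor switch: specification of the deduction (helper3)

Two results on `MP_00e23e_nt`.

T1 (`TOneStmt`): replaces `SmallResidues`: the condition β(2 - λ) < 1 disappears.
T2 (`TTwoStmt`): level of distribution ⟺ sums over a smooth cofactor r with moving shifts b(d).

Both follow from the KEY lemma (`KeyStmt`, proved in the modules of helper95) by elementary steps. The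
paper proof of each statement is in its docstring. Notation in the docstrings: L = log x, N = x/d,
T = ⌈L^C⌉, E = err, τ(m) = number of divisors, G_d(R) = `GG d R` = ∑_{r ≤ R, μ²(dr)=1} 1/r.
Every module `Lib/EH4/<Name>.lean` imports this file and proves `theorem <name> : <Stmt>` with the
statements named under `uses` as hypotheses.
-/

namespace Pool.Agent.Lib.EH4

open Finset Pool.Agent.Results.MP_00e23e_nt Pool.Agent.Lib.EH Pool.Agent.Lib.EH3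

/-- number of pairs (r,t), 1 ≤ r ≤ R, t < T, with d r squarefree and r ∣ n - t (in ℤ) -/
def cntRT (d R T n : ℕ) : ℕ :=
  ((Icc 1 R ×ˢ range T).filter (fun q => Squarefree (d * q.1) ∧
    (q.1 : ℤ) ∣ (n : ℤ) - (q.2 : ℤ))).card

/-- the sum of 1/r over r ≤ R with d r squarefree -/
noncomputable def GG (d R : ℕ) : ℝ := ∑ r ∈ (Icc 1 R).filter (fun r => Squarefree (d * r)), 1 / (r : ℝ)

/-- KEY lemma: the number of pairs (r,t), r ≤ R, t < T, r ∣ n - t is constant in L¹. (Proved in the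
modules of helper95.) -/
def KeyStmt : Prop := ∀ (δ : ℝ) (A K : ℕ), 0 < δ → δ < 1 → ∃ C N₀ : ℕ, ∀ d N R T : ℕ,
  1 ≤ d → Squarefree d → N₀ ≤ N → 1 ≤ R → (R : ℝ) ≤ (N : ℝ) ^ (1 - δ) →
  (Real.log N) ^ C ≤ T → (T : ℝ) ≤ (N : ℝ) ^ (δ / 2) →
  (d.divisors.card : ℝ) ≤ (Real.log N) ^ K →
  ∑ n ∈ range N, |(cntRT d R T n : ℝ) - T * GG d R| ≤ (N : ℝ) * T / (Real.log N) ^ A

/-! ## A. General lemmas -/

/-- **Uni** (uniformization; module `Uni.lean`, `theorem uni : UniStmt`). F x d b is a real function,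
S x finite sets of indices, W x ⊆ S x windows which tend to infinity, P d b a condition which some b₁(d)
satisfies. If for every single b with P the sum over S x is ≪ x/(log x)^U, then for every U there are C
and x₀ such that for x ≥ x₀ and any two competitors bp, bm (depending on x) there is one b₀ (depending
on x, bp, bm) such that the sums with bp resp. bm on the window and b₀ outside are both ≤ C x/(log x)^U.

Proof. Suppose not, for some U. Then for every n (C = n, x₀ = anything) there are x ≥ x₀, bp, bm such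
that for all b₀ with P one of the two sums is > n x/(log x)^U in absolute value. Choose inductively X_n,
bp_n, bm_n (C = n) with X_n so large (`hW` with D = the maximum of all elements of S(X_j), j < n) that
all elements of W(X_n) are larger than all elements of S(X_j), j < n; and X_n ≥ 3. For d in some window
let N(d) be the least n with d ∈ W(X_n) (it is the only one: if d ∈ W(X_m), m > n then d > all elements of
S(X_n) ∋ d). For a sequence of signs s : ℕ → Prop let b_s(d) = bp_{N(d)}(d) if s(N(d)), bm_{N(d)}(d) if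
not, and b₁(d) if d is in no window. The sum over S(X_n) of F(X_n, d, b_s(d)) depends only on s(0..n)
(an element d of S(X_n) which lies in W(X_m) has m ≤ n). Choose s(n) recursively such that the sum with
s(n) = True resp. False is the one with the larger absolute value; compare `exists_signs'`, `srec'` in
`EH3/SmallMain.lean`, where exactly this is done. Then with b = b_s, b₀ := b_s at stage n both sums (bp_n
resp. bm_n on W(X_n), b₀ outside) are ≤ |∑_{S(X_n)} F(X_n, d, b(d))| ≤ C_b X_n/(log X_n)^U, and the choice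
of X_n gives n X_n/(log X_n)^U < max ≤ C_b X_n/(log X_n)^U: contradiction for n > C_b. -/
def UniStmt : Prop := ∀ (F : ℝ → ℕ → ℕ → ℝ) (S W : ℝ → Finset ℕ) (P : ℕ → ℕ → Prop) (b₁ : ℕ → ℕ),
  (∀ d, P d (b₁ d)) → (∀ x, W x ⊆ S x) →
  (∀ D : ℕ, ∃ x₁ : ℝ, ∀ x : ℝ, x₁ ≤ x → ∀ d ∈ W x, D < d) →
  (∀ b : ℕ → ℕ, (∀ d, P d (b d)) → ∀ U : ℝ, 0 < U → ∃ C : ℝ, ∀ x : ℝ, 3 ≤ x →
    |∑ d ∈ S x, F x d (b d)| ≤ C * (x / (Real.log x) ^ U)) →
  ∀ U : ℝ, 0 < U → ∃ C x₀ : ℝ, ∀ x : ℝ, x₀ ≤ x → ∀ bp bm : ℕ → ℕ,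
    (∀ d, P d (bp d)) → (∀ d, P d (bm d)) → ∃ b₀ : ℕ → ℕ, (∀ d, P d (b₀ d)) ∧
      |∑ d ∈ S x, F x d (if d ∈ W x then bp d else b₀ d)| ≤ C * (x / (Real.log x) ^ U) ∧
      |∑ d ∈ S x, F x d (if d ∈ W x then bm d else b₀ d)| ≤ C * (x / (Real.log x) ^ U)

/-- **Dyp** (primes in dyadic intervals; module `Dyp.lean`, `theorem dyp : DypStmt`).

Proof. n = ⌊S/2⌋₊; primes p with n < p ≤ 2n satisfy S/2 < p ≤ S. As in Mathlib's proof of Bertrand's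
postulate (`Mathlib/NumberTheory/Bertrand.lean`): 4^n ≤ 2n·centralBinom n
(`Nat.four_pow_le_two_mul_self_mul_centralBinom` or similar); centralBinom n = ∏_{p < 2n+1} p^{v_p}; primes
p ≤ √(2n): p^{v_p} ≤ 2n (`Nat.pow_factorization_choose_le`), at most √(2n) of them; √(2n) < p ≤ 2n/3:
v_p ≤ 1, product ≤ primorial(2n/3) ≤ 4^{2n/3}; 2n/3 < p ≤ n: v_p = 0; n < p ≤ 2n: v_p ≤ 1, product
≤ (2n)^M, M = their number. So 4^{n/3} ≤ (2n)^{M+√(2n)+1}, M ≥ (n/3)·log 4/log(2n) - √(2n) - 1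
≥ S/(12 log S) for S large (n ≥ S/2 - 1, 2n ≤ S, log 4/6 = 0.231 > 1/12). -/
def DypStmt : Prop := ∃ S₀ : ℝ, 3 ≤ S₀ ∧ ∀ S : ℝ, S₀ ≤ S →
  S / (12 * Real.log S) ≤
    (((Icc 1 ⌊S⌋₊).filter (fun p : ℕ => p.Prime ∧ S / 2 < (p : ℝ))).card : ℝ)

/-- **Cop** (module `Cop.lean`, `theorem cop : CopStmt`): number of t < T with l + d t coprime to r.

Proof. The indicator of gcd(l + d t, r) = 1 is ∑_{e ∣ r, e ∣ l + dt} μ(e) (`Nat.sum_divisors_filter`..,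
`ArithmeticFunction.moebius` and `coe_mul_zeta`, or induction); for e ∣ r the integer d is invertible
modulo e, so #{t < T : e ∣ l + d t} = T/e + θ_e, |θ_e| ≤ 1 (one residue class of t modulo e:
`Nat.count_modEq_card` or by hand). Sum: ∑_{e ∣ r} μ(e)/e = φ(r)/r, |∑ μ(e) θ_e| ≤ τ(r).
(Alternative without Möbius function: induction over the prime factors; any proof is fine.) -/
def CopStmt : Prop := ∀ d l r T : ℕ, 1 ≤ r → d.Coprime r →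
  |((((range T).filter (fun t => (l + d * t).Coprime r)).card : ℝ) - T * (r.totient : ℝ) / r)| ≤
    (r.divisors.card : ℝ)

/-- **Div** (divisor sums; module `Div.lean`, `theorem div : DivStmt`).

Proof. ∑_{r ≤ n} τ(r)/r = ∑_{a b ≤ n} 1/(a b) ≤ (∑_{a ≤ n} 1/a)², and ∑_{a ≤ n} 1/a ≤ 1 + log n
(`harmonic_le_one_add_log`). Second: τ(m)² = ∑_{a ∣ m} ∑_{b ∣ m} 1, so the sum is at most
∑_{a,b ≤ n} ∑_{m ≤ n, lcm(a,b) ∣ m} 1/m ≤ (1 + log n) ∑_{a,b ≤ n} 1/lcm(a,b), and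
1/lcm(a,b) = gcd(a,b)/(a b); write g = gcd, a = g a', b = g b': ≤ ∑_g ∑_{a',b' ≤ n} 1/(g a' b')
≤ (1 + log n)³. (Or: τ(uv) ≤ τ(u) τ(v) ...; any proof with the exponent 4 is fine.) Third: 1/φ(r) ≤
(2 log r + 1)/r by `le_totient`, `card_primeFactors_le` of `Lib/EH/Basic.lean`, then the first bound. -/
def DivStmt : Prop := ∀ n : ℕ, 1 ≤ n →
  ∑ r ∈ Icc 1 n, (r.divisors.card : ℝ) / r ≤ (1 + Real.log n) ^ 2 ∧
  ∑ m ∈ Icc 1 n, (m.divisors.card : ℝ) ^ 2 / m ≤ (1 + Real.log n) ^ 4 ∧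
  ∑ r ∈ Icc 1 n, (r.divisors.card : ℝ) / (r.totient : ℝ) ≤ 2 * (1 + Real.log n) ^ 3

/-- **Triv** (trivial bounds; module `Triv.lean`, `theorem triv : TrivStmt`).

Proof. At most x/m + 1 ≤ 2 x/m integers ≤ x lie in a class modulo m ≤ x (all p counted are ≥ 1); li x ≤
6 x/log x (`EH3.li_le_div`), m ≤ (ω(m) + 1) φ(m) ≤ 3 log x·φ(m) (`le_totient`, `card_primeFactors_le`,
log x ≥ 1), so li x/φ(m) ≤ 18 x/m. The bound for maxErr: `exists_maxErr`. The bound for cofactorSum: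
∑_{r ≤ R} 20 x/(d r) ≤ 20 (x/d)(1 + log R) ≤ 40 (x/d) log x (d R ≤ x gives R ≤ x; for R < 1 the sum is
empty). -/
def TrivStmt : Prop := ∀ x : ℝ, 3 ≤ x →
  (∀ m b : ℕ, 1 ≤ m → (m : ℝ) ≤ x → |err x m b| ≤ 20 * x / m) ∧
  (∀ m : ℕ, 1 ≤ m → (m : ℝ) ≤ x → maxErr x m ≤ 20 * x / m) ∧
  (∀ (d b : ℕ) (R : ℝ), 1 ≤ d → 0 ≤ R → (d : ℝ) * R ≤ x →
    |cofactorSum x d b R| ≤ 40 * (x / d) * Real.log x) ∧
  (∀ (d R : ℕ), (R : ℝ) ≤ x → GG d R ≤ 2 * Real.log x)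

/-! ## B. The identity -/

/-- **IdA** (module `IdA.lean`, `theorem idA : IdAStmt`): the primes.

Proof. Let nn = `nn x d l` (the n with p = l + d n prime, p ≤ x, `EH/Basic.lean`). Summing cntRT over
n ∈ nn: ∑_{t<T} ∑_{r ≤ R, μ²(dr)=1} #{n ∈ nn : r ∣ n - t}, and #{n ∈ nn : r ∣ n - t} =
primeCount x (d r) (l + d t): p = l + d n ≡ l + d t mod d r iff r ∣ n - t; every prime p ≤ x,
p ≡ l + dt mod dr is ≡ l mod d hence = l + d n with n ∈ nn (`cong_ge`, `le_div_of`; compare `cnt_nn`, the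
case t < r). The terms with gcd(l + d t, d r) > 1: a prime p in this class is divisible by the gcd, so
equal to it: primeCount ≤ 1. There are at most T R pairs (r,t). -/
def IdAStmt : Prop := ∀ (x : ℝ) (d l R T : ℕ), 0 ≤ x → 1 ≤ d → 1 ≤ l → l ≤ d →
  |∑ t ∈ range T, ∑ r ∈ (Icc 1 R).filter (fun r => Squarefree (d * r) ∧
      (l + d * t).Coprime (d * r)), (primeCount x (d * r) (l + d * t) : ℝ) -
    ∑ n ∈ nn x d l, (cntRT d R T n : ℝ)| ≤ (T : ℝ) * R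

/-- **IdB** (module `IdB.lean`, `theorem idB : IdBStmt`; uses `Cop`, `Div`): the main terms.

Proof. φ(d r) = φ(d) φ(r) as d, r are coprime (d r squarefree). l + d t is coprime to d. Interchange the
sums: (1/φ(d)) ∑_{r ≤ R, μ²(dr)=1} (1/φ(r)) #{t < T : (l + d t, r) = 1}, and by `Cop` the count is
T φ(r)/r + O(τ(r)); `Div`, third part. -/
def IdBStmt : Prop := ∀ (d l R T : ℕ), 1 ≤ d → l.Coprime d → 1 ≤ R →
  |∑ t ∈ range T, ∑ r ∈ (Icc 1 R).filter (fun r => Squarefree (d * r) ∧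
      (l + d * t).Coprime (d * r)), 1 / ((d * r).totient : ℝ) - T * GG d R / (d.totient : ℝ)| ≤
    2 * (1 + Real.log R) ^ 3 / (d.totient : ℝ)

/-- **Iden** (the identity; module `Iden.lean`, `theorem iden : IdenStmt`; uses `Key`, `IdA`, `IdB`).
T = ⌈L^C⌉.

Proof. Put N = ⌊x/d⌋₊ + 1, so nn ⊆ range N, x/d < N ≤ 2x/d, N ≥ x^{1-α}, log N ≥ (1-α) L, log N ≤ 2L.
R' = ⌊R⌋₊ ≤ (x/d)^{1-δ} ≤ N^{1-δ}. Let C₁, N₀ be given by KEY for (δ, A + 3, K + 1); put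
C = max(C₁ + 1, A + 8). For x large: (log N)^{C₁} ≤ (2L)^{C₁} ≤ L^C ≤ T ≤ 2 L^C ≤ x^{(1-α)δ/2} ≤ N^{δ/2},
τ(d) ≤ L^K ≤ (log N)^{K+1}. Unfold cofactorSum and err: the sum is (prime part) - li x·(main part).
|prime part - ∑_{nn} cntRT| ≤ T R' ≤ T (x/d)^{1-δ} (`IdA`); |∑_{nn} cntRT - T GG #nn| ≤ ∑_{n<N}|..| ≤
N T/(log N)^{A+3} ≤ T (x/d)·2/((1-α)L)^{A+3} (`Key`); #nn = primeCount x d l (`card_nn`). Main part: `IdB`
with li x/φ(d)·2(1+L)³ ≤ 18 (x/d)·16 L³ and this is ≤ T (x/d)/(4 L^A) as T ≥ L^{A+8}. All errors are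
≤ T (x/d)/(4 L^A) for x large ((x/d)^{-δ} ≤ x^{-δ(1-α)}). -/
def IdenStmt : Prop := ∀ (α δ : ℝ) (A K : ℕ), 0 < α → α < 1 → 0 < δ → δ < 1 →
  ∃ (C : ℕ) (x₀ : ℝ), A + 8 ≤ C ∧ ∀ x : ℝ, x₀ ≤ x → ∀ d ∈ moduli α x,
    (d.divisors.card : ℝ) ≤ (Real.log x) ^ K → ∀ R : ℝ, 1 ≤ R → R ≤ (x / d) ^ (1 - δ) →
    ∀ l : ℕ, 1 ≤ l → l ≤ d → l.Coprime d →
    |∑ t ∈ range ⌈(Real.log x) ^ C⌉₊, cofactorSum x d (l + d * t) R -
      (⌈(Real.log x) ^ C⌉₊ : ℝ) * GG d ⌊R⌋₊ * err x d l| ≤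
      (⌈(Real.log x) ^ C⌉₊ : ℝ) * (x / d) / (Real.log x) ^ A

/-! ## C. T1: small residues -/

/-- b is an admitted residue for m: 1 ≤ b ≤ m^lam, coprime to m -/
def SmallRes (lam : ℝ) (m b : ℕ) : Prop := 1 ≤ b ∧ (b : ℝ) ≤ (m : ℝ) ^ lam ∧ b.Coprime m

/-- bp, bm give the largest and the smallest error among the small residues, for all moduli in the
dyadic window -/
def Extremal (β lam x : ℝ) (bp bm : ℕ → ℕ) : Prop := ∀ m ∈ dyadicModuli β x,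
  SmallRes lam m (bp m) ∧ SmallRes lam m (bm m) ∧
  ∀ b : ℕ, SmallRes lam m b → err x m (bm m) ≤ err x m b ∧ err x m b ≤ err x m (bp m)

/-- **GLow** (module `GLow.lean`, `theorem gLow : GLowStmt`; uses `Dyp`): lower bounds for the mass.

Proof. First part: the sum GG d ⌊R⌋ - GG d ⌊R/2⌋ runs over r ∈ (R/2, R] with d r squarefree (R/2 < r iff
⌊R/2⌋ < r) and contains all primes p ∈ (R/2, R] not dividing d (d p squarefree as d is), each with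
1/p ≥ 1/R; by `Dyp` there are at least R/(12 log R) - ω(d), ω(d) ≤ 2 log d ≤ 2 log x, and for
R ≥ x^η, x large, this is ≥ R/(24 log x) (R ≤ x). Second part: the same for the window: primes in
(x^γ/2, x^γ] are squarefree, at least x^γ/(12 γ L) of them, each with 1/p ≥ x^{-γ}. Third: GG d R ≥ 1 (the
term r = 1). -/
def GLowStmt : Prop :=
  (∀ η : ℝ, 0 < η → ∃ x₀ : ℝ, ∀ x : ℝ, x₀ ≤ x → ∀ R : ℝ, x ^ η ≤ R → R ≤ x → ∀ d : ℕ, 1 ≤ d →
    (d : ℝ) ≤ x → Squarefree d → 1 / (24 * Real.log x) ≤ GG d ⌊R⌋₊ - GG d ⌊R / 2⌋₊) ∧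
  (∀ γ : ℝ, 0 < γ → γ < 1 → ∃ x₀ : ℝ, ∀ x : ℝ, x₀ ≤ x →
    1 / (12 * Real.log x) ≤ ∑ d ∈ dyadicModuli γ x, 1 / (d : ℝ)) ∧
  (∀ d R : ℕ, Squarefree d → 1 ≤ R → 1 ≤ GG d R)

/-- **SOne** (one modulus; module `SOne.lean`, `theorem sOne : SOneStmt`; uses `Iden`, `GLow`, `Triv`,
`Cop`, `Div`).

Proof. R = x^β/d. δ = 1 - β: R ≤ (x/d)^β (d ≥ 1). Use `Iden` with A + 2, K, δ (C and T from there) for R and
for R/2 (≥ 1) and subtract: for l = `red d (top x d)` and l' = `red d (bot x d)`: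
∑_{t<T} ∑_{r ∈ (R/2,R], μ²(dr)=1, (l+dt,dr)=1} E(x;dr,l+dt) = T (GG d ⌊R⌋ - GG d ⌊R/2⌋) E(x;d,l) + O(2 T
(x/d)/L^{A+2}), same for l'. For r ∈ (R/2,R], m = d r lies in dyadicModuli β x, and b = l + d t ≤ d T ≤
2 x^α L^C ≤ (x^β/2)^λ < m^λ (x large, α < λβ), so b is a small residue. Let E⁺ = err x m (bp m), E⁻ =
err x m (bm m), n_r(l) = #{t < T: (l + d t, r) = 1} = T φ(r)/r + O(τ(r)) (`Cop`). The sum for l is
≤ ∑_r n_r(l) E⁺, the sum for l' is ≥ ∑_r n_r(l') E⁻; difference ≤ ∑_r n_r(l)(E⁺ - E⁻) +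
∑_r (n_r(l) - n_r(l')) E⁻ ≤ T ∑_r (E⁺ - E⁻) + ∑_r 2 τ(r)·20 x/(d r) (`Triv`), and the last sum is
≤ 40 (x/d)(1 + log R)² (`Div`) ≤ 160 (x/d) L² ≤ T (x/d)/L^{A+2} for x large, as C ≥ A + 10. Divide by
T (GG d ⌊R⌋ - GG d ⌊R/2⌋) ≥ T/(24 L) (`GLow`, η = β - α). var = E(x;d,l) - E(x;d,l') (`err_congr`,
`red_modEq`). -/
def SOneStmt : Prop := ∀ (α β lam : ℝ) (A K : ℕ), 0 < α → 0 < lam → lam < 1 → β < 1 → α < lam * β →
  ∃ x₀ : ℝ, ∀ x : ℝ, x₀ ≤ x → ∀ bp bm : ℕ → ℕ, Extremal β lam x bp bm →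
    ∀ d ∈ moduli α x, (d.divisors.card : ℝ) ≤ (Real.log x) ^ K →
    var x d ≤ 24 * Real.log x * ∑ r ∈ (Icc 1 ⌊x ^ β / d⌋₊).filter (fun r : ℕ =>
      Squarefree (d * r) ∧ x ^ β / d / 2 < (r : ℝ)),
        (err x (d * r) (bp (d * r)) - err x (d * r) (bm (d * r))) + (x / d) / (Real.log x) ^ A

/-- **SSum** (sum over the moduli; module `SSum.lean`, `theorem sSum : SSumStmt`; uses `SOne`, `Triv`,
`Div`).

Proof. K = A + 5, use `SOne` with A + 2. Moduli with τ(d) > L^K: var x d ≤ 2·20 x/d (`Triv`), and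
∑_{τ(d) > L^K} x/d ≤ x L^{-K} ∑ τ(d)/d ≤ x L^{-K} (1 + L)² (`Div`). The others: ∑_d (x/d)/L^{A+2} ≤
2 x L^{-A-1} (`sum_inv_moduli`); the double sum ∑_d ∑_r (E⁺ - E⁻)(d r) ≤ ∑_{m ∈ dyadicModuli β x} τ(m)
(E⁺ - E⁻)(m) (each m = d r for at most τ(m) pairs; E⁺ ≥ E⁻). Cauchy–Schwarz: ≤ (∑ τ(m)² (E⁺ - E⁻))^{1/2}
(∑ (E⁺ - E⁻))^{1/2}, the first sum is ≤ 40 x ∑_{m ≤ x} τ(m)²/m ≤ 40 x (1 + L)⁴. So the total is
≤ 24 L·(40 x (2L)^4)^{1/2} D^{1/2} + ..., D = ∑_{m} (E⁺ - E⁻). -/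
def SSumStmt : Prop := ∀ (α β lam : ℝ) (A : ℕ), 0 < α → 0 < lam → lam < 1 → β < 1 → α < lam * β →
  ∃ (K : ℕ) (x₀ : ℝ), ∀ x : ℝ, x₀ ≤ x → ∀ bp bm : ℕ → ℕ, Extremal β lam x bp bm →
    ∑ d ∈ moduli α x, var x d ≤
      Real.sqrt (x * (Real.log x) ^ K *
        ∑ m ∈ dyadicModuli β x, (err x m (bp m) - err x m (bm m))) + x / (Real.log x) ^ A

/-- **SFin** (module `SFin.lean`, `theorem sFin : SFinStmt`; uses `Uni`, `SSum`): small residues at one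
level β < 1, λβ > α, and at level α give α admissible.

Proof. `admissible_of_eventually` (`EH/LiftBase.lean`). Let U > 0, A = ⌈U⌉ + 1; K from `SSum`. `Uni` with
F = err, S = moduli β, W = dyadicModuli β, P m b := (1 ≤ m → SmallRes lam m b), b₁ = 1, and exponent
U' = 2 A + K: for x ≥ x₀ choose bp, bm extremal (finite sets `(Icc 1 m).filter ..`, nonempty as b = 1 is
in it; arbitrary = 1 outside the window), get b₀; the difference of the two sums is D = ∑_{W} (E⁺ - E⁻)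
≤ 2 C x/L^{U'}. So ∑ var ≤ (x L^K·2 C x/L^{2A+K})^{1/2} + x/L^A ≤ (√(2C) + 1) x/L^A. `SS_le_signed` with
a = 1 and `SmallResidues α lam` for b = 1: SS α x ≤ C' x/L^U + 2 ∑ var + 24 L³. -/
def SFinStmt : Prop := ∀ α β lam : ℝ, 0 < α → 0 < lam → lam < 1 → β < 1 → α < lam * β →
  SmallResidues β lam → SmallResidues α lam → Admissible α

/-- **TOne**: result T1 (module `TOne.lean`, `theorem tOne : TOneStmt`; uses `SFin`). Proof: 1 → 2
`small_of_admissible`, 2 → 3: β = α + 2ε, lam = 1 - ε, ε = (α₀ - α)/4 as in `small_tfae`; 3 → 1 `SFin`. -/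
def TOneStmt : Prop := ∀ α₀ : ℝ, α₀ ≤ 1 → List.TFAE [
    ∀ α : ℝ, 0 < α → α < α₀ → Admissible α,
    ∀ β lam : ℝ, 0 < β → β < α₀ → 0 < lam → lam < 1 → SmallResidues β lam,
    ∀ α : ℝ, 0 < α → α < α₀ → ∃ β lam : ℝ, β < 1 ∧ 0 < lam ∧ lam < 1 ∧ α < lam * β ∧
      SmallResidues β lam ∧ SmallResidues α lam]

/-! ## D. T2: moving shifts and smooth cofactors -/

/-- **Fwd** (module `Fwd.lean`, `theorem fwd : FwdStmt`; uses `Triv`, `Div`).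

Proof. |cofactorSum x d b (x^ρ)| ≤ ∑_{r ≤ x^ρ, μ²(dr)=1} maxErr x (d r) (b coprime to d r: `err_congr` with
`red`, `le_maxErr`). d r ≤ x^{α+ρ}. Sum over d: ≤ ∑_{m ∈ moduli (α+ρ) x} τ(m) maxErr x m ≤ (∑ τ(m)² maxErr)^{1/2}
(∑ maxErr)^{1/2} ≤ (20 x (1+L)⁴)^{1/2} (C x/L^{2U+4})^{1/2}. -/
def FwdStmt : Prop := ∀ α ρ : ℝ, 0 < α → 0 < ρ → α + ρ < 1 → Admissible (α + ρ) → CofactorSup α ρ

/-- b is an admitted shift for d -/
def MovRes (k d b : ℕ) : Prop := 1 ≤ b ∧ (b : ℝ) ≤ d * (1 + Real.log d) ^ k ∧ b.Coprime d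

/-- bp, bm give the largest and the smallest cofactor sum among the admitted shifts, for all d in the
dyadic window -/
def ExtremalC (α ρ x : ℝ) (k : ℕ) (bp bm : ℕ → ℕ) : Prop := ∀ d ∈ dyadicModuli α x,
  MovRes k d (bp d) ∧ MovRes k d (bm d) ∧ ∀ b : ℕ, MovRes k d b →
    cofactorSum x d (bm d) (x ^ ρ) ≤ cofactorSum x d b (x ^ ρ) ∧
    cofactorSum x d b (x ^ ρ) ≤ cofactorSum x d (bp d) (x ^ ρ)

/-- **MOne** (one modulus; module `MOne.lean`, `theorem mOne : MOneStmt`; uses `Iden`): for d in the window and every reduced l: GG E(x;d,l) lies between the minimum and the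
maximum of the cofactor sums, up to (x/d)/L^A.

Proof. δ = min(1/2, 1 - ρ/(1-α)) > 0: x^ρ ≤ (x^{1-α})^{1-δ} ≤ (x/d)^{1-δ}. `Iden` gives C; k = C + 1.
For d > x^α/2, log d ≥ (α/2) L (x large), and l + d t ≤ d T ≤ 2 d L^C ≤ d (1 + log d)^{C+1} for x large. l + d t
is coprime to d. So each of the T terms is between the two extremes; divide by T. -/
def MOneStmt : Prop := ∀ (α ρ : ℝ) (A K : ℕ), 0 < α → 0 < ρ → α + ρ < 1 →
  ∃ (k : ℕ) (x₀ : ℝ), ∀ x : ℝ, x₀ ≤ x → ∀ bp bm : ℕ → ℕ, ExtremalC α ρ x k bp bm →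
    ∀ d ∈ dyadicModuli α x, (d.divisors.card : ℝ) ≤ (Real.log x) ^ K →
    ∀ l : ℕ, 1 ≤ l → l ≤ d → l.Coprime d →
      cofactorSum x d (bm d) (x ^ ρ) - (x / d) / (Real.log x) ^ A ≤ GG d ⌊x ^ ρ⌋₊ * err x d l ∧
      GG d ⌊x ^ ρ⌋₊ * err x d l ≤ cofactorSum x d (bp d) (x ^ ρ) + (x / d) / (Real.log x) ^ A

/-- **MSum** (sum over the window; module `MSum.lean`, `theorem mSum : MSumStmt`; uses `MOne`, `GLow`,
`Triv`, `Div`).

Proof. W = dyadicModuli α x, M_d, m_d the cofactor sums of bp, bm; osc_d = M_d - m_d ≥ 0; G_d = GG d ⌊x^ρ⌋,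
1 ≤ G_d ≤ 2L. Bp = |∑_W M_d|, Bm = |∑_W m_d|; ∑_W osc_d ≤ Bp + Bm. `MOne` with A + 6 and K = A + 8.
Let W' be the d ∈ W with τ(d) ≤ L^K, ε_d = (x/d)/L^{A+6}. For d ∈ W \ W' everything is ≤ 80 (x/d) L in absolute
value (`Triv`: maxErr, |M_d|, |m_d|, G_d·av) and ∑_{W \ W'} x/d ≤ x L^{-K}(1+L)². Mean: av x d =
(E₁ - om x d)/φ(d), E₁ = err x 1 1 (`sum_err`, `av_between`: av is between the two extreme errors, so G_d av is
between m_d - ε_d and M_d + ε_d on W'). So |∑_W G_d av - ∑_W M_d| ≤ ∑_W (osc_d + ε_d) + (terms of W \ W'), hence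
|E₁| ∑_W G_d/φ(d) ≤ 2 Bp + Bm + ∑ ε_d + ... + ∑_W G_d om/φ(d), where om ≤ 2L (`om_le`), ∑ 1/φ(d) ≤ 6 L²
(`sum_inv_totient`), and ∑_W G_d/φ(d) ≥ ∑_W 1/d ≥ 1/(12 L) (`GLow`). Finally for d ∈ W':
|E(x;d,l)| ≤ |E - av| + |av| ≤ osc_d + 2 ε_d + (|E₁| + 2L)/φ(d) (G_d ≥ 1), so the sum of maxErr over W is
≤ Bp + Bm + 2 ∑ ε_d + (|E₁| + 2L)·6L² + (terms of W \ W'), ≤ L^5 (Bp + Bm) + x/L^A for x large (the k
of the statement is the one of `MOne`, the K of the statement is 5, say). -/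
def MSumStmt : Prop := ∀ (α ρ : ℝ) (A : ℕ), 0 < α → 0 < ρ → α + ρ < 1 →
  ∃ (k K : ℕ) (x₀ : ℝ), ∀ x : ℝ, x₀ ≤ x → ∀ bp bm : ℕ → ℕ, ExtremalC α ρ x k bp bm →
    ∑ d ∈ dyadicModuli α x, maxErr x d ≤
      (Real.log x) ^ K * (|∑ d ∈ dyadicModuli α x, cofactorSum x d (bp d) (x ^ ρ)| +
        |∑ d ∈ dyadicModuli α x, cofactorSum x d (bm d) (x ^ ρ)|) + x / (Real.log x) ^ A

/-- **MWin** (module `MWin.lean`, `theorem mWin : MWinStmt`; uses `Uni`, `MSum`).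

Proof. Given U, take A = ⌈U⌉, k, K from `MSum`; `Uni` with F x d b = cofactorSum x d b (x^ρ), S = W =
dyadicModuli α, P d b := (1 ≤ d → MovRes k d b), b₁ = 1, hypothesis `CofactorSigned α ρ` for this k,
exponent U + K. Extremal bp, bm exist (finite sets of b, nonempty as b = 1). -/
def MWinStmt : Prop := ∀ α ρ : ℝ, 0 < α → 0 < ρ → α + ρ < 1 → CofactorSigned α ρ →
  ∀ U : ℝ, 0 < U → ∃ C x₀ : ℝ, ∀ x : ℝ, x₀ ≤ x →
    ∑ d ∈ dyadicModuli α x, maxErr x d ≤ C * (x / (Real.log x) ^ U)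

/-- **Dya** (from the dyadic window to all moduli; module `Dya.lean`, `theorem dya : DyaStmt`; uses
`Dyp`, `Triv`).

Proof. `admissible_of_eventually`. Let d ∈ moduli α x, S = x^{α'}/d ≥ x^{α'-α}, 𝒫 = primes in (S/2, S] not
dividing d; #𝒫 ≥ S/(12 log S) - 2L ≥ S/(24 L) for x large (`Dyp`, `card_primeFactors_le`). For p ∈ 𝒫 and
reduced l mod d: E(x;d,l) = ∑_{l' mod dp, l' ≡ l (d), p ∤ l'} E(x;dp,l') + θ, 0 ≤ θ ≤ 1 (θ counts the prime p if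
p ≡ l mod d, p ≤ x; φ(dp) = φ(d)(p-1)): |E(x;d,l)| ≤ (p-1) maxErr x (dp) + 1 ≤ S maxErr x (dp) + 1. Average
over p ∈ 𝒫: maxErr x d ≤ 24 L ∑_{p ∈ 𝒫} maxErr x (dp) + 1. Sum over d: dp ∈ dyadicModuli α' x, every m is dp for
at most ω(m) ≤ 2L pairs; so SS α x ≤ 48 L² ∑_{m ∈ dyadicModuli α' x} maxErr x m + x^α. Use the hypothesis with
U + 2. -/
def DyaStmt : Prop := ∀ α α' : ℝ, 0 < α → α < α' → α' < 1 →
  (∀ U : ℝ, 0 < U → ∃ C x₀ : ℝ, ∀ x : ℝ, x₀ ≤ x →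
    ∑ d ∈ dyadicModuli α' x, maxErr x d ≤ C * (x / (Real.log x) ^ U)) → Admissible α

/-- **TTwo**: result T2 (module `TTwo.lean`, `theorem tTwo : TTwoStmt`; uses `Fwd`, `MWin`, `Dya`).

Proof. 1 → 2: `Fwd`. 2 → 3: ρ = (α₀ - α)/2, a signed sum over a part of the moduli is at most the sum of
the absolute values. 3 → 1: given α < α₀, apply 3 to α' = (α + α₀)/2, `MWin`, `Dya`. -/
def TTwoStmt : Prop := ∀ α₀ : ℝ, α₀ ≤ 1 → List.TFAE [
    ∀ α : ℝ, 0 < α → α < α₀ → Admissible α,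
    ∀ α ρ : ℝ, 0 < α → 0 < ρ → α + ρ < α₀ → CofactorSup α ρ,
    ∀ α : ℝ, 0 < α → α < α₀ → ∃ ρ : ℝ, 0 < ρ ∧ α + ρ < 1 ∧ CofactorSigned α ρ]

end Pool.Agent.Lib.EH4
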