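import Pool.Agent.Lib.EH4.SpecD
import Pool.Agent.Lib.EH3.LS2

/-!
MP_00e23e_nt, directory Lib/EH4, part K (architect helper95): proof of `KeyStmt` of SpecD.lean (for
almost all n < N the number of pairs (t, r), t < T, r ≤ R, d r squarefree, n ≡ t mod r, is close to
T ∑ 1/r, for every R ≤ N^(1-δ)): large sieve in r for r ≤ N^(1/2) Y^17, large sieve in the complementary
divisor k (n - t = r k) for larger r.

RULES. Module X: file Pool/Agent/Lib/EH4/X.lean, first line `import Pool.Agent.Lib.EH4.SpecK`, then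
`namespace Pool.Agent.Lib.EH4` and `open Finset Pool.Agent.Results.MP_00e23e_nt Pool.Agent.Lib.EH
Pool.Agent.Lib.EH3`, private lemmas with names starting with X_, final theorem `theorem tX (h1 : AStmt) ... :
XStmt`; the statements listed under Uses are hypotheses of your theorem. The docstring contains a
complete proof. Tools: Lib/EH3/LS1 (ee, ee_add, ee_int, norm_ee, conj_ee, ee_nat_mul, dual_ls),
Lib/EH3/LS2 (orth, gh_parseval, spacing for primes), Lib/EH/Sieve (count_bound).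
-/

namespace Pool.Agent.Lib.EH4

open Finset Pool.Agent.Results.MP_00e23e_nt Pool.Agent.Lib.EH Pool.Agent.Lib.EH3

/-- number of t < T with n ≡ t mod r -/
def cT (T r n : ℕ) : ℕ := ((range T).filter (fun t => n ≡ t [MOD r])).card

/-- r ≤ R with d r squarefree -/
def Rset (d R : ℕ) : Finset ℕ := (Icc 1 R).filter (fun r => Squarefree (d * r))

/-- the least g with: e^2 divides d r if and only if g divides r (d squarefree) -/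
def gm (d e : ℕ) : ℕ := e ^ 2 / Nat.gcd e d

/-- the exponential sum over t < T -/
noncomputable def DT (T : ℕ) (θ : ℝ) : ℂ := ∑ t ∈ range T, ee (-(t * θ))

/-- the complementary divisors k used in the block [j M, (j+1) M) -/
def Kset (N M R1 R T j : ℕ) : Finset ℕ :=
  (Icc 1 (3 * N)).filter (fun k => (j + 1) * M ≤ k * R ∧ k * R1 + T ≤ j * M)

/-- sizes of the parameters (Y is a power of log N) -/
def HYP (Y N T R : ℕ) : Prop :=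
  100 ≤ Y ∧ 1 + Real.log N ≤ Y ∧ Y ^ 50 ≤ T ∧ T * Y ^ 25 ≤ N ∧ R * Y ^ 25 ≤ N

/-- Module Siz (theorem tSiz). Uses: nothing.
Proof. N ≥ T Y^25 ≥ Y^75; M := N / Y^16: T Y^16 ≤ T Y^25 ≤ N gives T ≤ M, same for R; N < (M+1) Y^16 ≤
2 M Y^16; (Y^37)^2 ≤ N gives Y^37 ≤ s := sqrt N; N < (s+1)^2 gives N ≤ s^2 + 2 s ≤ 3 s^2; s Y^17 ≤ s s ≤ N. -/
def SizStmt : Prop :=
  ∀ Y N T R : ℕ, HYP Y N T R → Y ^ 75 ≤ N ∧ 1 ≤ N / Y ^ 16 ∧ N / Y ^ 16 * Y ^ 16 ≤ N ∧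
    N ≤ 2 * (N / Y ^ 16 * Y ^ 16) ∧ T ≤ N / Y ^ 16 ∧ R ≤ N / Y ^ 16 ∧ Y ^ 37 ≤ Nat.sqrt N ∧
    N ≤ 3 * (Nat.sqrt N) ^ 2 ∧ (Nat.sqrt N) ^ 2 ≤ N ∧ Nat.sqrt N * Y ^ 17 ≤ N ∧ R ≤ N

/-- Module Frac (theorem tFrac). Uses: nothing.
Proof. Write a/r in lowest terms: a ↦ (q, b) = (r/gcd(a,r), a/gcd(a,r)) is a bijection from range r onto
the pairs q | r, b < q, b coprime to q (a = 0 gives q = 1, b = 0), inverse (q,b) ↦ b (r/q). Use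
Finset.sum_sigma and Finset.sum_bij' or sum_nbij'. -/
def FracStmt : Prop :=
  ∀ (f : ℝ → ℂ) (r : ℕ), 1 ≤ r → ∑ a ∈ range r, f ((a : ℝ) / r) =
    ∑ q ∈ r.divisors, ∑ b ∈ (range q).filter (fun b => b.Coprime q), f ((b : ℝ) / q)

/-- Module Spc (theorem tSpc). Uses: nothing. (Compare EH3.spacing, which is the case of primes.)
Proof. With k = round(...), the number inside the absolute value is z/(q v), z = b v - c q - q v k ∈ ℤ. If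
z = 0 then b/q = c/v + k with both fractions in [0,1), so k = 0 and b v = c q; coprimality gives q | v
and v | q, so q = v and b = c, excluded. So |z| ≥ 1 and q v ≤ Q^2. -/
def SpcStmt : Prop :=
  ∀ Q q b v c : ℕ, 2 ≤ q → q ≤ Q → b < q → b.Coprime q → 2 ≤ v → v ≤ Q → c < v → c.Coprime v →
    ¬ (q = v ∧ b = c) →
    1 / (Q : ℝ) ^ 2 ≤ |((b : ℝ) / q - (c : ℝ) / v) - round ((b : ℝ) / q - (c : ℝ) / v)|

/-- Module Four (theorem tFour). Uses: nothing.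
Proof. Interchange: the sum is ∑_{t<T} ∑_{a ∈ range r} ee(a ((n - t)/r)) = ∑_{t<T} (r if r | n - t, else 0)
by EH3.orth; n ≡ t mod r iff (r : ℤ) | (n : ℤ) - t. -/
def FourStmt : Prop :=
  ∀ r T n : ℕ, 1 ≤ r →
    ∑ a ∈ range r, DT T ((a : ℝ) / r) * ee (n * ((a : ℝ) / r)) = (r : ℂ) * (cT T r n : ℂ)

/-- Module Par (theorem tPar). Uses: nothing.
Proof. ∑_{b ∈ range q} |DT T (b/q)|^2 = ∑_{t,t' < T} ∑_b ee(b (t' - t)/q) = q #{(t,t') : t ≡ t' mod q} ≤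
q T (T/q + 1) = T^2 + q T (EH3.orth; for each t there are at most T/q + 1 values t' < T, t' ≡ t). The term
b = 0 is T^2, and all terms are real and ≥ 0. -/
def ParStmt : Prop :=
  ∀ q T : ℕ, 1 ≤ q →
    ∑ b ∈ (range q).filter (fun b => 0 < b), ‖DT T ((b : ℝ) / q)‖ ^ 2 ≤ (q : ℝ) * T

/-- Module Harm (theorem tHarm). Uses: nothing.
Proof. log((k+1)/k) ≤ 1/k gives the first part by induction on b (if b < a the sum is empty and the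
left side is ≤ 0). 1/(k+1) ≤ log((k+1)/k) gives the second part. Third: r = g s, s ≤ R/g, and the
second part with a = 1 (the sum over s ≤ S is ≤ 1 + log S ≤ 1 + log R; empty if R < g). -/
def HarmStmt : Prop :=
  (∀ a b : ℕ, 1 ≤ a → Real.log (((b : ℝ) + 1) / a) ≤ ∑ k ∈ Icc a b, 1 / (k : ℝ)) ∧
  (∀ a b : ℕ, 1 ≤ a → a ≤ b → ∑ k ∈ Icc a b, 1 / (k : ℝ) ≤ 1 / (a : ℝ) + Real.log ((b : ℝ) / a)) ∧
  (∀ g R : ℕ, 1 ≤ g → ∑ r ∈ (Icc 1 R).filter (fun r => g ∣ r), 1 / (r : ℝ) ≤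
    (1 + Real.log R) / g)

/-- Module Lsq (theorem tLsq; large sieve for all moduli q ≤ Q and windows of length T). Uses: Frac,
Spc, Four, Par, Harm.
Proof. Let J be the Finset of pairs (q, b) (a sigma type, as in EH3.dual_primes) with 2 ≤ q ≤ Q, b < q, b
coprime to q; θ(q,b) = b/q, h = M + Q^2, c(q,b) = DT T (b/q) L_q ee(n0 (b/q)), L_q = ∑_{r ∈ S, q | r} 1/r.
For n: ∑_{j ∈ J} c_j ee(n θ_j) = ∑_{r ∈ S} (1/r) ∑_{q | r, 2 ≤ q} ∑_{b} DT T (b/q) ee((n0+n)(b/q)), and by Frac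
and Four the inner double sum is r cT T r (n0+n) - T (the divisor q = 1 has b = 0 and gives T), so
∑_j c_j ee(n θ_j) = ∑_{r ∈ S} (cT T r (n0+n) - T/r). EH3.dual_ls with δ = 1/Q^2 (Spc; 2 h/Q^2 ≥ 1) and
range M ⊆ range (2h): the left side is ≤ 10 (2h) ∑_j |c_j|^2. By Harm L_q ≤ (1 + log Q)/q, and
∑_{b, coprime} |DT T (b/q)|^2 ≤ q T for q ≥ 2 by Par (b coprime to q ≥ 2 gives 0 < b), so
∑_j |c_j|^2 ≤ ∑_{2 ≤ q ≤ Q} (1 + log Q)^2/q^2 q T ≤ T (1 + log Q)^3 (Harm with g = 1).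
If some r ∈ S is 1 then its term is cT T 1 n - T = 0, consistent. -/
def LsqStmt : Prop :=
  ∀ (Q M T n0 : ℕ) (S : Finset ℕ), 1 ≤ Q → S ⊆ Icc 1 Q →
    ∑ n ∈ range M, (∑ q ∈ S, ((cT T q (n0 + n) : ℝ) - (T : ℝ) / q)) ^ 2 ≤
      20 * ((M : ℝ) + (Q : ℝ) ^ 2) * T * (1 + Real.log Q) ^ 3

/-- Module Cnt (theorem tCnt). Uses: nothing.
Proof. ∑_n cT T r (n0+n) = ∑_{t<T} #{n < M : n0 + n ≡ t mod r} and each number is ≤ M/r + 1 (M consecutive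
integers contain at most ⌈M/r⌉ members of a residue class mod r). -/
def CntStmt : Prop :=
  ∀ r T M n0 : ℕ, 1 ≤ r →
    ∑ n ∈ range M, (cT T r (n0 + n) : ℝ) ≤ (T : ℝ) * ((M : ℝ) / r + 1)

/-- Module Mu1 (theorem tMu1). Uses: nothing.
Proof. (1) d squarefree: gcd(e^2, d) = gcd(e, d) =: G (a squarefree divisor of e^2 divides e), and
e^2 | d r iff e^2/G | (d/G) r iff e^2/G | r (e^2/G and d/G are coprime: a common prime p would give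
p | d, p | e, so p | G and p^2 | d). So for 1 ≤ e: gm d e | r iff e^2 | d r.
(2) m = d r ≥ 1; write m = a^2 b with b squarefree (Nat.sq_mul_squarefree); e^2 | m iff e | a. So the
sum is ∑_{e | a} μ(e) = [a = 1] (ArithmeticFunction.coe_moebius_mul_coe_zeta or similar), and a = 1 iff
m is squarefree. All e with e^2 | m satisfy 1 ≤ e ≤ m ≤ K. -/
def Mu1Stmt : Prop :=
  ∀ (d r K : ℕ), Squarefree d → 1 ≤ r → d * r ≤ K →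
    (if Squarefree (d * r) then (1 : ℝ) else 0) =
      ∑ e ∈ (Icc 1 K).filter (fun e => gm d e ∣ r), (ArithmeticFunction.moebius e : ℝ)

/-- Module Mu2 (theorem tMu2). Uses: nothing.
Proof. gcd(e,d) divides e, so gm d e = e (e / gcd(e,d)) and (gm d e : ℝ) = e^2/gcd(e,d).
Tail: gcd(e,d) ≤ ∑_{f | d, f | e} f, so the sum is ≤ ∑_{f | d} f ∑_{e ∈ Ioc E K, f | e} 1/e^2. Put
e = f e', e' > E/f. If f ≤ E: ∑_{e' > E/f} 1/e'^2 ≤ 1/⌊E/f⌋ ≤ 2 f/E. If f > E: ∑_{e' ≥ 1} 1/e'^2 ≤ 2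
(EH3.sum_sq_inv_nat). In both cases f (1/f^2) (...) ≤ 2/E. Total ≤ 2 tau(d)/E. -/
def Mu2Stmt : Prop :=
  (∀ d e : ℕ, 1 ≤ e → e ≤ gm d e ∧ gm d e ≤ e ^ 2) ∧
  (∀ d E K : ℕ, 1 ≤ d → 1 ≤ E →
    ∑ e ∈ Ioc E K, 1 / (gm d e : ℝ) ≤ 4 * (d.divisors.card : ℝ) / E)

/-- Module DgM (theorem tDgM; minorant in one block). Uses: nothing.
Proof. Put n' = j M + n. Both sides count pairs: left (t, k), t < T, k ∈ Kset, n' ≡ t mod g k; right (t, r),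
t < T, R1 < r ≤ R, g | r, n' ≡ t mod r. If Kset is empty trivial; otherwise T ≤ j M ≤ n'. For a pair (t, k) on
the left, n' - t > 0 is a multiple of g k; let r = (n' - t)/k, so r k = n' - t and g | r. r k ≤ n' < (j+1) M ≤
k R gives r ≤ R, and r k = n' - t > j M - T ≥ k R1 gives r > R1. The map (t,k) ↦ (t,r) is injective, since
r k = n' - t > 0 determines k. -/
def DgMStmt : Prop :=
  ∀ g N M R1 R T j n : ℕ, 1 ≤ g → n < M →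
    ∑ k ∈ Kset N M R1 R T j, cT T (g * k) (j * M + n) ≤
      ∑ r ∈ (Ioc R1 R).filter (fun r => g ∣ r), cT T r (j * M + n)

/-- Module DgE (theorem tDgE). Uses: Siz, Lsq.
Proof. M = N / Y^16, s = sqrt N, R1 = s Y^17. Cauchy-Schwarz and Lsq with n0 = j M, the set S = image of Kset
under k ↦ g k (injective, Finset.sum_image) and Q = 9 s / Y^9 (natural division). For k ∈ Kset:
k R1 ≤ j M ≤ 3 Y^16 M ≤ 3 N, so g k s Y^17 ≤ Y^8 3 N ≤ 9 Y^8 s^2, so g k Y^9 ≤ 9 s, g k ≤ Q. 1 ≤ Q since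
Y^9 ≤ Y^37 ≤ s; Q^2 Y^18 ≤ 81 s^2 ≤ 81 N ≤ 162 M Y^16, so Q^2 ≤ M as 162 ≤ Y^2; 1 + log Q ≤ 1 + log N ≤ Y
(Q ≤ N). So the square of the left side is ≤ M 20 (M + M) T Y^3 = 40 M^2 T Y^3 ≤ M^2 T^2/Y^18 as
40 Y^21 ≤ Y^50 ≤ T. -/
def DgEStmt : Prop :=
  ∀ Y g N T R j : ℕ, HYP Y N T R → 1 ≤ g → g ≤ Y ^ 8 → j ≤ 3 * Y ^ 16 →
    ∑ n ∈ range (N / Y ^ 16), |∑ k ∈ Kset N (N / Y ^ 16) (Nat.sqrt N * Y ^ 17) R T j,
      ((cT T (g * k) (j * (N / Y ^ 16) + n) : ℝ) - (T : ℝ) / ((g * k : ℕ) : ℝ))| ≤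
      ((N / Y ^ 16 : ℕ) : ℝ) * T / (Y : ℝ) ^ 9

/-- Module DgL (theorem tDgL; the main terms). Uses: Siz, Harm.
Proof. M = N / Y^16, R1 = sqrt N Y^17. If R ≤ R1 the left side is 0. Otherwise R > R1 ≥ 1.
K1 = ((j+1) M + R - 1) / R (ceiling; K1 ≥ 1, K1 < ((j+1) M + R)/R as reals), K2 = (j M - T) / R1 (natural
division; K2 + 1 > (j M - T)/R1). Icc K1 K2 ⊆ Kset (k ≤ K2 ≤ j M ≤ 3 N since j ≤ 3 Y^16, M Y^16 ≤ N). By Harm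
∑_{k ∈ Kset} 1/k ≥ log((K2+1)/K1) ≥ log(R/R1) + log((j M - T)/((j+1) M + R)) ≥ log(R/R1) - 6/Y^8, because
log z ≥ 1 - 1/z and (M + R + T)/(j M - T) ≤ 3 M/(j M/2) = 6/j ≤ 6/Y^8 (T ≤ M, R ≤ M, T ≤ j M/2).
Left side: r = g r', r' ∈ Icc (R1/g + 1) (R/g) (natural division); if this is empty the left side is 0; by
Harm ∑ 1/r ≤ (1/g) (g/R1 + log((R/g)/(R1/g))) ≤ (1/g) (g/R1 + log(R/R1)), where 1/(R1/g + 1) ≤ g/R1.
Finally (T/g) (6/Y^8) + T/R1 ≤ 7 T/Y^8 (R1 ≥ Y^8, g ≥ 1), and 1/((g k : ℕ) : ℝ) = (1/g) (1/k). -/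
def DgLStmt : Prop :=
  ∀ Y g N T R j : ℕ, HYP Y N T R → 1 ≤ g → g ≤ Y ^ 8 → Y ^ 8 ≤ j → j ≤ 3 * Y ^ 16 →
    (T : ℝ) * ∑ r ∈ (Ioc (Nat.sqrt N * Y ^ 17) R).filter (fun r => g ∣ r), 1 / (r : ℝ) ≤
      (T : ℝ) * ∑ k ∈ Kset N (N / Y ^ 16) (Nat.sqrt N * Y ^ 17) R T j, 1 / ((g * k : ℕ) : ℝ) +
      7 * (T : ℝ) / (Y : ℝ) ^ 8

/-- Module DgB (theorem tDgB; one block). Uses: Siz, Cnt, DgM, DgE, DgL.
Proof. M = N / Y^16, n' = j M + n, D(n) = ∑_{r ∈ (R1,R], g | r} cT T r n', μ = T ∑_{r ∈ (R1,R], g | r} 1/r,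
D'(n) = ∑_{k ∈ Kset} cT T (g k) n', m = T ∑_{k ∈ Kset} 1/(g k), E = M T/Y^9. The left side is ∑_{n<M} |D - μ|.
D' ≤ D (DgM), ∑_{n<M} |D' - m| ≤ E (DgE), μ ≤ m + 7 T/Y^8 (DgL), ∑_{n<M} D ≤ M μ + T R (Cnt; at most R values
of r). So ∑ D' ≥ M m - E, ∑ (D - D') ≤ M μ + T R - M m + E ≤ 7 T M/Y^8 + T R + E; M (m - μ) ≤ T R + E since
M m - E ≤ ∑ D' ≤ ∑ D ≤ M μ + T R; so ∑ |D' - μ| ≤ E + M |m - μ| ≤ 2 E + 7 T M/Y^8 + T R. Add the two. -/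
def DgBStmt : Prop :=
  ∀ Y g N T R j : ℕ, HYP Y N T R → 1 ≤ g → g ≤ Y ^ 8 → Y ^ 8 ≤ j → j ≤ 3 * Y ^ 16 →
    ∑ n ∈ range (N / Y ^ 16), |∑ r ∈ (Ioc (Nat.sqrt N * Y ^ 17) R).filter (fun r => g ∣ r),
      ((cT T r (j * (N / Y ^ 16) + n) : ℝ) - (T : ℝ) / r)| ≤
      14 * (T : ℝ) * ((N / Y ^ 16 : ℕ) : ℝ) / (Y : ℝ) ^ 8 + 2 * (T : ℝ) * R +
      3 * (((N / Y ^ 16 : ℕ) : ℝ) * T / (Y : ℝ) ^ 9)

/-- Module Dg (theorem tDg). Uses: Siz, Cnt, Harm, DgB.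
Proof. M = N / Y^16; N ≤ 2 M Y^16 ≤ 3 Y^16 M, so range N ⊆ range (3 Y^16 M); split this into the blocks
n' = j M + n, j < 3 Y^16, n < M (Finset.sum over range (a * b), for instance Finset.sum_range_... or by
induction). Blocks j < Y^8 together: n' < X0 := Y^8 M, X0 Y^8 ≤ N; there the sum is ≤ ∑_{n' < X0} ∑_r cT T r n' +
X0 T σ with σ = ∑_{r ∈ (R1,R], g | r} 1/r ≤ (1 + log R)/g ≤ Y (Harm, R ≤ N) and ∑_{n' < X0} cT T r n' ≤ T (X0/r + 1)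
(Cnt): at most 2 X0 T Y + T R ≤ 2 N T/Y^7 + N T/Y^25. Blocks Y^8 ≤ j < 3 Y^16: DgB, at most 3 Y^16 blocks:
≤ 42 T N/Y^8 + 6 Y^16 T R + 9 N T/Y^9 ≤ (42/Y + 15/Y^2) N T/Y^7 ≤ N T/(2 Y^7). Total ≤ 3 N T/Y^7. -/
def DgStmt : Prop :=
  ∀ Y g N T R : ℕ, HYP Y N T R → 1 ≤ g → g ≤ Y ^ 8 →
    ∑ n ∈ range N, |∑ r ∈ (Ioc (Nat.sqrt N * Y ^ 17) R).filter (fun r => g ∣ r),
      ((cT T r n : ℝ) - (T : ℝ) / r)| ≤ 3 * ((N : ℝ) * T / (Y : ℝ) ^ 7)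

/-- Module KLa (theorem tKLa). Uses: Siz, Lsq.
Proof. Cauchy-Schwarz and Lsq with Q = R1 = sqrt N Y^17 ≤ N, M = N, n0 = 0: R1^2 ≤ N Y^34, 1 + log R1 ≤ Y, so
the square of the left side is ≤ N 20 (N + N Y^34) T Y^3 ≤ 40 N^2 T Y^37 ≤ N^2 T^2/Y^4 as 40 Y^41 ≤ Y^50 ≤ T. -/
def KLaStmt : Prop :=
  ∀ Y d N T R : ℕ, HYP Y N T R →
    ∑ n ∈ range N, |∑ r ∈ (Rset d R).filter (fun r => r ≤ Nat.sqrt N * Y ^ 17),
      ((cT T r n : ℝ) - (T : ℝ) / r)| ≤ (N : ℝ) * T / (Y : ℝ) ^ 2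

/-- Module KLb (theorem tKLb). Uses: Siz, Cnt, Harm, Mu2.
Proof. For 1 ≤ r ≤ R ≤ N: ∑_{n<N} cT T r n ≤ T (N/r + 1) ≤ 2 N T/r, so the inner sum is ≤ 3 N T/r. Harm:
∑_{r ≤ R, g | r} 1/r ≤ (1 + log R)/g ≤ Y/g (g = gm d e ≥ e ≥ 1). Mu2 with E = Y^4: ∑_e 1/gm d e ≤ 4 Y/Y^4.
Total ≤ 3 N T Y (4 Y/Y^4) = 12 N T/Y^2. -/
def KLbStmt : Prop :=
  ∀ Y d N T R K : ℕ, HYP Y N T R → 1 ≤ d → d.divisors.card ≤ Y →
    ∑ e ∈ Ioc (Y ^ 4) K, ∑ r ∈ (Icc 1 R).filter (fun r => gm d e ∣ r),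
      ∑ n ∈ range N, ((cT T r n : ℝ) + (T : ℝ) / r) ≤ 12 * ((N : ℝ) * T / (Y : ℝ) ^ 2)

/-- Module KL (theorem tKL). Uses: Mu1, Mu2, Dg, KLa, KLb.
Proof. R1 = sqrt N Y^17. Rset d R splits into r ≤ R1 (KLa) and R1 < r ≤ R, which is the set of r ∈ Ioc R1 R with
d r squarefree. For the latter let K = d R + Y^4; by Mu1 (d r ≤ K) the indicator of d r squarefree is
∑_{e ∈ Icc 1 (Y^4), gm d e | r} μ(e) + ∑_{e ∈ Ioc (Y^4) K, gm d e | r} μ(e). The first part: interchange the sums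
over e and r, |μ(e)| ≤ 1, and Dg for g = gm d e (1 ≤ e ≤ gm d e ≤ e^2 ≤ Y^8): at most Y^4 3 N T/Y^7 = 3 N T/Y^3.
The second part: |cT - T/r| ≤ cT + T/r, interchange, KLb: at most 12 N T/Y^2. Total ≤ 16 N T/Y^2 ≤ N T/Y. -/
def KLStmt : Prop :=
  ∀ Y d N T R : ℕ, HYP Y N T R → Squarefree d → d.divisors.card ≤ Y →
    ∑ n ∈ range N, |∑ r ∈ Rset d R, ((cT T r n : ℝ) - (T : ℝ) / r)| ≤ (N : ℝ) * T / Y

/-- Module Key (theorem tKey (h : KLStmt) : KeyStmt; this docstring belongs to KeyStmt of SpecD). Uses: KL.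
Proof. B = A + K + 2, Y = ⌈(log N)^B⌉, C = 50 (B + 1). For N ≥ N₀: 100 ≤ Y, 1 + log N ≤ (log N)^B ≤ Y ≤
(log N)^(B+1), so Y^50 ≤ (log N)^C ≤ T; T Y^25 ≤ N^(δ/2) (log N)^(25 (B+1)) ≤ N and R Y^25 ≤ N^(1-δ)
(log N)^(25 (B+1)) ≤ N (EH.polylog_le), card d.divisors ≤ (log N)^K ≤ Y, so HYP holds and KL applies, N T/Y ≤
N T/(log N)^A. Finally cntRT d R T n = ∑_{r ∈ Rset d R} cT T r n ((r : ℤ) | n - t iff n ≡ t mod r:
Nat.modEq_iff_dvd), T GG d R = ∑_{r ∈ Rset d R} T/r. -/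
def KeyImp : Prop := KLStmt → KeyStmt

end Pool.Agent.Lib.EH4
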